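import Pool.Agent.Helper28.T3.StB

/-!
Project T3 (MP_1d384c_nt, owners helper28 and helper14), module DCN: the number of `d` for fixed
`a`, `b`, `c`.
-/

set_option autoImplicit false

namespace Pool.Agent.Helper72.T3

open Pool.Agent.Helper28.T3

private lemma cF_ineq (X : ℝ) (a b c d : ℤ) (h : GX X a b c d) :
    Real.sqrt (4 * ((cA a b c : ℤ) : ℝ) ^ 3 - (a : ℝ) ^ 2 * X) ≤ ((cF a b c d : ℤ) : ℝ) ∧
    ((cF a b c d : ℤ) : ℝ) ≤ Real.sqrt (4 * ((cA a b c : ℤ) : ℝ) ^ 3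
      - 3 * (a : ℝ) ^ 2 * ((cA a b c : ℤ) : ℝ) ^ 2) := by
  obtain ⟨⟨-, -, -, -, h5, -, h7⟩, h8⟩ := h
  have hid : (cF a b c d) ^ 2 + a ^ 2 * cD a b c d = 4 * cA a b c ^ 3 := by
    unfold cF cD cA cB
    ring
  have hid' : ((cF a b c d : ℤ) : ℝ) ^ 2 + (a : ℝ) ^ 2 * ((cD a b c d : ℤ) : ℝ)
      = 4 * ((cA a b c : ℤ) : ℝ) ^ 3 := by exact_mod_cast hid
  have hy : (0 : ℝ) ≤ ((cF a b c d : ℤ) : ℝ) := by exact_mod_cast h7
  have hm : 3 * ((cA a b c : ℤ) : ℝ) ^ 2 ≤ ((cD a b c d : ℤ) : ℝ) := by exact_mod_cast h5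
  have ha : (0 : ℝ) ≤ (a : ℝ) ^ 2 := sq_nonneg _
  constructor
  · rw [← Real.sqrt_sq hy]
    apply Real.sqrt_le_sqrt
    nlinarith [mul_le_mul_of_nonneg_left h8 ha]
  · conv_lhs => rw [← Real.sqrt_sq hy]
    apply Real.sqrt_le_sqrt
    nlinarith [mul_le_mul_of_nonneg_left hm ha]

theorem hDCN : StDCN := by
  intro X a b c d0 F hF
  have hW : 0 ≤ Wf X a (cA a b c) := le_max_left _ _
  rcases F.eq_empty_or_nonempty with rfl | hne
  · simp only [Finset.card_empty, Nat.cast_zero]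
    positivity
  obtain ⟨d₁, h₁, hmin⟩ : ∃ d₁ ∈ F, ∀ d ∈ F, d₁ ≤ d :=
    ⟨F.min' hne, F.min'_mem hne, fun d hd => F.min'_le d hd⟩
  obtain ⟨d₂, h₂, hmax⟩ : ∃ d₂ ∈ F, ∀ d ∈ F, d ≤ d₂ :=
    ⟨F.max' hne, F.max'_mem hne, fun d hd => F.le_max' d hd⟩
  have ha : (1 : ℝ) ≤ (a : ℝ) := by exact_mod_cast (hF d₁ h₁).2.1.1
  have e1 := (cF_ineq X a b c d₁ (hF d₁ h₁).2).1
  have e2 := (cF_ineq X a b c d₂ (hF d₂ h₂).2).2
  have e3 : ((cF a b c d₂ : ℤ) : ℝ) - ((cF a b c d₁ : ℤ) : ℝ)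
      = (a : ℝ) ^ 2 * ((d₂ : ℝ) - (d₁ : ℝ)) := by
    unfold cF
    push_cast
    ring
  have e4 : (a : ℝ) ^ 2 * ((d₂ : ℝ) - (d₁ : ℝ)) ≤ Wf X a (cA a b c) := by
    rw [← e3]
    refine le_trans ?_ (le_max_right _ _)
    linarith
  have e5 : (F.card : ℤ) ≤ (d₂ - d₁) / 6 + 1 := by
    have h3 : F.card ≤ (Finset.Icc (0 : ℤ) ((d₂ - d₁) / 6)).card := by
      apply Finset.card_le_card_of_injOn (fun d => (d - d₁) / 6)
      · intro d hd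
        have h4 := hmin d hd
        have h5 := hmax d hd
        simp only [Finset.coe_Icc, Set.mem_Icc]
        constructor
        · omega
        · omega
      · intro d hd d' hd' h
        have h4 := (hF d hd).1
        have h5 := (hF d' hd').1
        have h6 := (hF d₁ h₁).1
        simp only at h
        omega
    rw [Int.card_Icc] at h3
    have h7 := hmin d₂ h₂
    omega
  have e6 : ((F.card : ℤ) : ℝ) ≤ ((d₂ : ℝ) - (d₁ : ℝ)) / 6 + 1 := by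
    have h1 : 6 * (F.card : ℤ) ≤ (d₂ - d₁) + 6 := by omega
    have h2 : 6 * ((F.card : ℤ) : ℝ) ≤ ((d₂ : ℝ) - (d₁ : ℝ)) + 6 := by exact_mod_cast h1
    linarith
  have e7 : ((F.card : ℤ) : ℝ) = (F.card : ℝ) := by norm_cast
  rw [e7] at e6
  have ha2 : (0 : ℝ) < (a : ℝ) ^ 2 := by positivity
  have e8 : ((d₂ : ℝ) - (d₁ : ℝ)) / 6 ≤ Wf X a (cA a b c) / (6 * (a : ℝ) ^ 2) := by
    rw [div_le_div_iff₀ (by norm_num) (by positivity)]
    nlinarith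
  linarith

end Pool.Agent.Helper72.T3
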